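import Pool.Agent.Helper46.NB.Stmts

/-!
Row E2 of project NB: expected number of surviving edges.
-/

set_option autoImplicit false

namespace Pool.Agent.Helper19.NB

open Finset
open scoped Classical
open Pool.Agent.Helper46.NB

noncomputable section

section basics

variable {V : Type} [Fintype V] {N : ℕ}

/-- indicator -/
def ind (P : Prop) : ℝ := if P then 1 else 0

theorem ind_true {P : Prop} (h : P) : ind P = 1 := if_pos h

theorem ind_false {P : Prop} (h : ¬ P) : ind P = 0 := if_neg h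

theorem ind_nonneg (P : Prop) : 0 ≤ ind P := by
  unfold ind
  split_ifs <;> norm_num

theorem Pr_ind (P : (Sym2 V → Fin N) → Prop) : Pr P = Av (fun ω => ind (P ω)) := by
  unfold Pr Av ind
  rw [Finset.card_filter]
  push_cast
  rfl

theorem Av_mono {X Y : (Sym2 V → Fin N) → ℝ} (h : ∀ ω, X ω ≤ Y ω) : Av X ≤ Av Y := by
  unfold Av
  exact div_le_div_of_nonneg_right (Finset.sum_le_sum fun ω _ => h ω) (Nat.cast_nonneg _)

theorem Av_sub (X Y : (Sym2 V → Fin N) → ℝ) : Av (fun ω => X ω - Y ω) = Av X - Av Y := by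
  unfold Av
  rw [Finset.sum_sub_distrib, sub_div]

theorem Av_sum {ι : Type} (S : Finset ι) (X : ι → (Sym2 V → Fin N) → ℝ) :
    Av (fun ω => ∑ i ∈ S, X i ω) = ∑ i ∈ S, Av (X i) := by
  unfold Av
  rw [Finset.sum_comm, Finset.sum_div]

theorem Av_one (hN : 0 < N) : Av (fun _ : Sym2 V → Fin N => (1 : ℝ)) = 1 := by
  haveI : Nonempty (Fin N) := ⟨⟨0, hN⟩⟩
  unfold Av
  rw [Finset.sum_const, card_univ, nsmul_eq_mul, mul_one]
  refine div_self ?_
  have : 0 < Fintype.card (Sym2 V → Fin N) := Fintype.card_pos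
  exact_mod_cast this.ne'

theorem Av_card (S : Finset (Sym2 V)) (P : Sym2 V → (Sym2 V → Fin N) → Prop) :
    Av (fun ω => (#(S.filter fun e => P e ω) : ℝ)) = ∑ e ∈ S, Pr (P e) := by
  have h1 : (fun ω : Sym2 V → Fin N => (#(S.filter fun e => P e ω) : ℝ)) =
      fun ω => ∑ e ∈ S, ind (P e ω) := by
    funext ω
    rw [Finset.card_filter]
    push_cast
    rfl
  rw [h1, Av_sum]
  exact Finset.sum_congr rfl fun e _ => (Pr_ind _).symm

end basics

/-- pointwise inequality -/
theorem point {V : Type} {N : ℕ} {E : Finset (Sym2 V)} {L : Sym2 V → Finset ℕ}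
    {pick : Sym2 V → Fin N → Option ℕ} (hp : IsPick E L N pick) (ω : Sym2 V → Fin N)
    (f : Sym2 V) (c : ℕ) (w : V) :
    ind ((∀ c', ¬ Ret E pick ω f c') ∧ ¬ Lost E pick ω w c) ≤
      1 - ind (Lost E pick ω w c) - ∑ c' ∈ (L f).erase c, (ind (Ret E pick ω f c') -
        ∑ g ∈ (T E L w c).erase f, ind (Ret E pick ω f c' ∧ Ret E pick ω g c)) := by
  by_cases hR : ∃ c' ∈ (L f).erase c, Ret E pick ω f c'
  · -- `f` retains a colour different from `c`
    obtain ⟨c', hc', hret⟩ := hR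
    have h0 : ind ((∀ c', ¬ Ret E pick ω f c') ∧ ¬ Lost E pick ω w c) = 0 :=
      ind_false fun h => h.1 c' hret
    rw [h0]
    have huniq : ∀ c'', Ret E pick ω f c'' → c'' = c' := by
      intro c'' h
      have h1 := h.2.1
      have h2 := hret.2.1
      unfold Pk at h1 h2
      rw [h1] at h2
      exact Option.some.inj h2
    have hs : ∑ c'' ∈ (L f).erase c, (ind (Ret E pick ω f c'') -
        ∑ g ∈ (T E L w c).erase f, ind (Ret E pick ω f c'' ∧ Ret E pick ω g c)) =
        1 - ∑ g ∈ (T E L w c).erase f, ind (Ret E pick ω f c' ∧ Ret E pick ω g c) := by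
      rw [Finset.sum_eq_single c' ?_ ?_]
      · rw [ind_true hret]
      · intro c'' _ hne
        have h1 : ¬ Ret E pick ω f c'' := fun h => hne (huniq _ h)
        rw [ind_false h1, zero_sub, neg_eq_zero]
        refine Finset.sum_eq_zero fun g _ => ind_false fun h => h1 h.1
      · intro h
        exact absurd hc' h
    rw [hs]
    have hcc : c' ≠ c := (mem_erase.1 hc').1
    by_cases hLost : Lost E pick ω w c
    · rw [ind_true hLost]
      obtain ⟨g, hwg, hg⟩ := hLost
      have hgf : g ≠ f := by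
        rintro rfl
        exact hcc (huniq c hg).symm
      have hgT : g ∈ (T E L w c).erase f := by
        rw [mem_erase]
        refine ⟨hgf, ?_⟩
        unfold T
        rw [mem_filter]
        exact ⟨hg.1, hwg, (hp g hg.1).2 _ _ hg.2.1⟩
      have h1 : ind (Ret E pick ω f c' ∧ Ret E pick ω g c) ≤
          ∑ g ∈ (T E L w c).erase f, ind (Ret E pick ω f c' ∧ Ret E pick ω g c) :=
        Finset.single_le_sum (f := fun g => ind (Ret E pick ω f c' ∧ Ret E pick ω g c))
          (fun g _ => ind_nonneg _) hgT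
      rw [ind_true ⟨hret, hg⟩] at h1
      linarith
    · rw [ind_false hLost]
      have h1 : 0 ≤ ∑ g ∈ (T E L w c).erase f, ind (Ret E pick ω f c' ∧ Ret E pick ω g c) :=
        Finset.sum_nonneg fun g _ => ind_nonneg _
      linarith
  · push Not at hR
    have hs : ∑ c'' ∈ (L f).erase c, (ind (Ret E pick ω f c'') -
        ∑ g ∈ (T E L w c).erase f, ind (Ret E pick ω f c'' ∧ Ret E pick ω g c)) = 0 := by
      refine Finset.sum_eq_zero fun c'' hc'' => ?_
      have h1 := hR c'' hc''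
      rw [ind_false h1, zero_sub, neg_eq_zero]
      refine Finset.sum_eq_zero fun g _ => ind_false fun h => h1 h.1
    rw [hs, sub_zero]
    by_cases hLost : Lost E pick ω w c
    · rw [ind_true hLost, ind_false fun h => h.2 hLost]
      norm_num
    · rw [ind_false hLost]
      unfold ind
      split_ifs <;> norm_num

/-- the bounds for `th` -/
theorem th_bounds (l t : ℕ) (hl : 1 ≤ l) : 0 ≤ th (4 * l) t ∧ (l : ℝ) * th (4 * l) t ≤ 1 / 4 := by
  have hlR : (1 : ℝ) ≤ l := by exact_mod_cast hl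
  unfold th
  have h7 : (1 : ℝ) / ((4 * l : ℕ) : ℝ) ≤ 1 := by
    rw [div_le_one (by push_cast; linarith)]
    push_cast
    linarith
  have h6 : 0 ≤ (1 : ℝ) / ((4 * l : ℕ) : ℝ) := by positivity
  refine ⟨mul_nonneg h6 (pow_nonneg (by linarith) _), ?_⟩
  have h5 : (1 - (1 : ℝ) / ((4 * l : ℕ) : ℝ)) ^ (2 * t - 2) ≤ 1 :=
    pow_le_one₀ (by linarith) (by linarith)
  have h8 : (l : ℝ) * (1 / ((4 * l : ℕ) : ℝ)) = 1 / 4 := by
    push_cast
    field_simp
  calc (l : ℝ) * (1 / ((4 * l : ℕ) : ℝ) * (1 - 1 / ((4 * l : ℕ) : ℝ)) ^ (2 * t - 2))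
      = (1 / 4) * (1 - 1 / ((4 * l : ℕ) : ℝ)) ^ (2 * t - 2) := by rw [← mul_assoc, h8]
    _ ≤ 1 / 4 * 1 := by gcongr
    _ = 1 / 4 := by ring

theorem st_E2 (hP1 : ST_P1) (hP2 : ST_P2) (hP4 : ST_P4) : ST_E2 := by
  intro V _ E R L l t D pick hl htl hreg hp hRE hRl v c
  have hN : 2 ≤ 4 * l := by omega
  have hlR : (1 : ℝ) ≤ l := by exact_mod_cast hl
  have htR : (t : ℝ) ≤ l := by exact_mod_cast htl
  have ht0 : (0 : ℝ) ≤ t := Nat.cast_nonneg t
  obtain ⟨hx0, hx1⟩ := th_bounds l t hl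
  have htx : (t : ℝ) * th (4 * l) t ≤ 1 / 4 :=
    (mul_le_mul_of_nonneg_right htR hx0).trans hx1
  have htx0 : 0 ≤ (t : ℝ) * th (4 * l) t := mul_nonneg ht0 hx0
  have hlx0 : 0 ≤ (l : ℝ) * th (4 * l) t := mul_nonneg (by linarith) hx0
  have hK : 0 ≤ KK l t * (1 - aa l t) := by
    unfold KK aa
    exact mul_nonneg (by linarith) (by linarith)
  have hAv : Av (YY E R L pick v c) = ∑ f ∈ T E L v c, Pr (fun ω => f ∈ R ∧
      (∀ c', ¬ Ret E pick ω f c') ∧ ∀ w ∈ f, w ≠ v → ¬ Lost E pick ω w c) := by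
    rw [← Av_card (T E L v c) (fun f ω => f ∈ R ∧
      (∀ c', ¬ Ret E pick ω f c') ∧ ∀ w ∈ f, w ≠ v → ¬ Lost E pick ω w c)]
    congr 1
    funext ω
    unfold YY
    congr 2
    ext f
    simp only [mem_filter]
  rw [hAv]
  -- bound for one edge
  have hone : ∀ f ∈ T E L v c, (t : ℝ) * Pr (fun ω => f ∈ R ∧
      (∀ c', ¬ Ret E pick ω f c') ∧ ∀ w ∈ f, w ≠ v → ¬ Lost E pick ω w c) ≤
      t * (KK l t * (1 - aa l t)) + 1 := by
    intro f hf
    by_cases hfR : f ∈ R
    swap
    · have h0 : Pr (fun ω : Sym2 V → Fin (4 * l) => f ∈ R ∧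
          (∀ c', ¬ Ret E pick ω f c') ∧ ∀ w ∈ f, w ≠ v → ¬ Lost E pick ω w c) = 0 := by
        rw [Pr_ind]
        have h00 : (fun ω : Sym2 V → Fin (4 * l) => ind (f ∈ R ∧
          (∀ c', ¬ Ret E pick ω f c') ∧ ∀ w ∈ f, w ≠ v → ¬ Lost E pick ω w c)) =
            fun _ => (0 : ℝ) := by
          funext ω
          exact ind_false fun h => hfR h.1
        rw [h00]
        unfold Av
        simp
      rw [h0, mul_zero]
      have := mul_nonneg ht0 hK
      linarith
    have hfT := hf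
    unfold T at hf
    rw [mem_filter] at hf
    obtain ⟨hfE, hvf, hcf⟩ := hf
    obtain ⟨w, rfl⟩ := hvf
    have hvw : v ≠ w := by
      intro h
      exact hreg.loop _ hfE (by rw [h]; exact Sym2.mk_isDiag_iff.mpr rfl)
    set f := s(v, w) with hfdef
    have hwT : f ∈ T E L w c := by
      unfold T
      rw [mem_filter]
      exact ⟨hfE, Sym2.mem_mk_right _ _, hcf⟩
    have hTw : #(T E L w c) = t := by
      rcases hreg.col w c with h | h
      · exact absurd h (Finset.ne_empty_of_mem hwT)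
      · exact h
    have ht1 : 1 ≤ t := by
      rw [← hTw]
      exact card_pos.2 ⟨_, hwT⟩
    have ht1R : (1 : ℝ) ≤ t := by exact_mod_cast ht1
    have h1 : (fun ω : Sym2 V → Fin (4 * l) => f ∈ R ∧
          (∀ c', ¬ Ret E pick ω f c') ∧ ∀ w ∈ f, w ≠ v → ¬ Lost E pick ω w c) =
        fun ω => (∀ c', ¬ Ret E pick ω f c') ∧ ¬ Lost E pick ω w c := by
      funext ω
      apply propext
      constructor
      · rintro ⟨-, h2, h3⟩
        exact ⟨h2, h3 w (Sym2.mem_mk_right _ _) hvw.symm⟩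
      · rintro ⟨h2, h3⟩
        refine ⟨hfR, h2, ?_⟩
        intro u hu huv
        rw [hfdef, Sym2.mem_iff] at hu
        rcases hu with h | h
        · exact absurd h huv
        · rw [h]
          exact h3
    rw [h1]
    have h2 := Av_mono (fun ω => point hp ω f c w)
    rw [Av_sub, Av_sub, Av_one (by omega), Av_sum, ← Pr_ind, ← Pr_ind] at h2
    rw [hP2 V (4 * l) hN E L l t D pick hreg hp w c ⟨_, hwT⟩] at h2
    have h3 : ∀ c' ∈ (L f).erase c, th (4 * l) t -
        ((t : ℝ) - 1) * (th (4 * l) t ^ 2 / (1 - 1 / ((4 * l : ℕ) : ℝ)) ^ 2) ≤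
        Av (fun ω => ind (Ret E pick ω f c') -
          ∑ g ∈ (T E L w c).erase f, ind (Ret E pick ω f c' ∧ Ret E pick ω g c)) := by
      intro c' hc'
      rw [mem_erase] at hc'
      rw [Av_sub, Av_sum, ← Pr_ind, hP1 V (4 * l) hN E L l t D pick hreg hp f hfE c' hc'.2]
      have h4 : ∑ g ∈ (T E L w c).erase f, Av (fun ω => ind (Ret E pick ω f c' ∧ Ret E pick ω g c)) ≤
          ∑ _g ∈ (T E L w c).erase f, th (4 * l) t ^ 2 / (1 - 1 / ((4 * l : ℕ) : ℝ)) ^ 2 := by
        refine Finset.sum_le_sum fun g hg => ?_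
        rw [mem_erase] at hg
        rw [← Pr_ind]
        have h5 := hP4 V (4 * l) hN E L l t D pick hreg hp f hfE c' hc'.2 c hcf hc'.1.symm w
          (Sym2.mem_mk_right _ _) g hg.2 hg.1
        have hpos : (0 : ℝ) < (1 - 1 / ((4 * l : ℕ) : ℝ)) ^ 2 := by
          have : (1 : ℝ) / ((4 * l : ℕ) : ℝ) < 1 := by
            rw [div_lt_one (by push_cast; linarith)]
            push_cast
            linarith
          have h6 : (0 : ℝ) < 1 - 1 / ((4 * l : ℕ) : ℝ) := by linarith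
          positivity
        rw [le_div_iff₀ hpos]
        exact h5
      rw [Finset.sum_const, card_erase_of_mem hwT, hTw, nsmul_eq_mul, Nat.cast_sub ht1,
        Nat.cast_one] at h4
      linarith
    have h4 := Finset.sum_le_sum h3
    rw [Finset.sum_const, card_erase_of_mem hcf, hRl f hfR, nsmul_eq_mul, Nat.cast_sub hl,
      Nat.cast_one] at h4
    have h5 : Pr (fun ω => (∀ c', ¬ Ret E pick ω f c') ∧ ¬ Lost E pick ω w c) ≤
        1 - t * th (4 * l) t - ((l : ℝ) - 1) * (th (4 * l) t -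
        ((t : ℝ) - 1) * (th (4 * l) t ^ 2 / (1 - 1 / ((4 * l : ℕ) : ℝ)) ^ 2)) := by
      linarith
    -- numerics
    have hq : ((l : ℝ) - 1) * (1 / (1 - 1 / ((4 * l : ℕ) : ℝ)) ^ 2) ≤ l := by
      have h6 : (1 - 1 / ((4 * l : ℕ) : ℝ)) = (4 * l - 1) / (4 * l) := by
        push_cast
        field_simp
      rw [h6, div_pow, one_div_div, ← mul_div_assoc, div_le_iff₀ (by nlinarith)]
      nlinarith
    unfold KK aa
    set x := th (4 * l) t with hx
    set q := 1 / (1 - 1 / ((4 * l : ℕ) : ℝ)) ^ 2 with hqdef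
    have e1 : x ^ 2 / (1 - 1 / ((4 * l : ℕ) : ℝ)) ^ 2 = x ^ 2 * q := by
      rw [hqdef]
      ring
    rw [e1] at h5
    have h7 : (((l : ℝ) - 1) * q) * (((t : ℝ) - 1) * x) ≤ l * (((t : ℝ) - 1) * x) :=
      mul_le_mul_of_nonneg_right hq (mul_nonneg (by linarith) hx0)
    have h8 : (((l : ℝ) - 1) * q) * (((t : ℝ) - 1) * x) ≤ l * t * x := by
      nlinarith
    have h9 : 1 - t * x - ((l : ℝ) - 1) * (x - ((t : ℝ) - 1) * (x ^ 2 * q)) -
        (1 - t * x) * (1 - l * x) = x * (1 - l * t * x + (((l : ℝ) - 1) * q) * (((t : ℝ) - 1) * x)) := by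
      ring
    have h10 : x * (1 - l * t * x + (((l : ℝ) - 1) * q) * (((t : ℝ) - 1) * x)) ≤ x := by
      have : 1 - l * t * x + (((l : ℝ) - 1) * q) * (((t : ℝ) - 1) * x) ≤ 1 := by linarith
      calc _ ≤ x * 1 := mul_le_mul_of_nonneg_left this hx0
        _ = x := mul_one x
    have h11 : Pr (fun ω => (∀ c', ¬ Ret E pick ω f c') ∧ ¬ Lost E pick ω w c) ≤
        (1 - t * x) * (1 - l * x) + x := by linarith
    calc (t : ℝ) * Pr (fun ω => (∀ c', ¬ Ret E pick ω f c') ∧ ¬ Lost E pick ω w c)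
        ≤ t * ((1 - t * x) * (1 - l * x) + x) := mul_le_mul_of_nonneg_left h11 ht0
      _ = t * ((1 - t * x) * (1 - l * x)) + t * x := by ring
      _ ≤ _ := by linarith
  rcases hreg.col v c with h | h
  · rw [h, Finset.sum_empty]
    have := mul_nonneg ht0 hK
    nlinarith
  · rcases Nat.eq_zero_or_pos t with h0 | h0
    · rw [h0] at h
      rw [card_eq_zero.1 h, Finset.sum_empty, h0]
      simp
    · have ht' : (0 : ℝ) < t := by exact_mod_cast h0
      have h2 : ∀ f ∈ T E L v c, Pr (fun ω => f ∈ R ∧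
          (∀ c', ¬ Ret E pick ω f c') ∧ ∀ w ∈ f, w ≠ v → ¬ Lost E pick ω w c) ≤
          (t * (KK l t * (1 - aa l t)) + 1) / t := by
        intro f hf
        rw [le_div_iff₀ ht', mul_comm]
        exact hone f hf
      refine (Finset.sum_le_sum h2).trans ?_
      rw [Finset.sum_const, h, nsmul_eq_mul, mul_div_cancel₀ _ ht'.ne', ← mul_assoc]

end

end Pool.Agent.Helper19.NB
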