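import Pool.Agent.Helper46.NB.Stmts
import Pool.Agent.Helper86.BF.LLL

/-!
Row FIN of project NB: if `l ≥ 32 t` the local lemma with uniform random colours colours everything.
-/

set_option autoImplicit false

namespace Pool.Agent.Helper19.NB

open Finset
open scoped Classical
open Pool.Agent.Helper46.NB

noncomputable section

variable {V : Type} [Fintype V]

/-- colours of a list by number -/
def colr (L : Sym2 V → Finset ℕ) (l : ℕ) (e : Sym2 V) (a : Fin l) : ℕ :=
  if h : #(L e) = l then (L e).orderEmbOfFin h a else 0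

omit [Fintype V] in
theorem colr_mem {L : Sym2 V → Finset ℕ} {l : ℕ} {e : Sym2 V} (h : #(L e) = l) (a : Fin l) :
    colr L l e a ∈ L e := by
  unfold colr
  rw [dif_pos h]
  exact (L e).orderEmbOfFin_mem h a

omit [Fintype V] in
theorem colr_inj {L : Sym2 V → Finset ℕ} {l : ℕ} {e : Sym2 V} (h : #(L e) = l) :
    Function.Injective (colr L l e) := by
  intro a b hab
  unfold colr at hab
  rw [dif_pos h, dif_pos h] at hab
  exact ((L e).orderEmbOfFin h).injective hab

/-- the edges which meet `g` and have `c` in their list -/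
def TT (E : Finset (Sym2 V)) (L : Sym2 V → Finset ℕ) (g : Sym2 V) (c : ℕ) : Finset (Sym2 V) :=
  E.filter fun f => c ∈ L f ∧ ∃ v, v ∈ f ∧ v ∈ g

theorem card_TT {E : Finset (Sym2 V)} {L : Sym2 V → Finset ℕ} {l t D : ℕ} (hS : St E L l t D)
    (g : Sym2 V) (c : ℕ) : #(TT E L g c) ≤ 2 * t := by
  induction g using Sym2.ind with
  | _ v w =>
    have hsub : TT E L s(v, w) c ⊆ T E L v c ∪ T E L w c := by
      intro f hf
      simp only [TT, mem_filter] at hf
      obtain ⟨hfE, hc, u, huf, hu⟩ := hf
      rw [Sym2.mem_iff] at hu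
      simp only [T, mem_union, mem_filter]
      rcases hu with rfl | rfl
      · exact Or.inl ⟨hfE, huf, hc⟩
      · exact Or.inr ⟨hfE, huf, hc⟩
    have h1 := (card_le_card hsub).trans (card_union_le _ _)
    have h2 := hS.col v c
    have h3 := hS.col w c
    omega

/-- valid index of an event -/
def Vd (E : Finset (Sym2 V)) (L : Sym2 V → Finset ℕ) (l : ℕ)
    (j : Sym2 V × Sym2 V × Fin l) : Prop :=
  j.1 ∈ E ∧ j.2.1 ∈ E ∧ Adj j.1 j.2.1 ∧ colr L l j.1 j.2.2 ∈ L j.2.1

theorem near1 {E : Finset (Sym2 V)} {L : Sym2 V → Finset ℕ} {l t D : ℕ} (hS : St E L l t D)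
    (g : Sym2 V) :
    #(univ.filter fun j : Sym2 V × Sym2 V × Fin l => Vd E L l j ∧ j.1 = g) ≤ 2 * t * l := by
  have key := Finset.card_le_mul_card_image_of_maps_to
    (s := univ.filter fun j : Sym2 V × Sym2 V × Fin l => Vd E L l j ∧ j.1 = g)
    (t := (univ : Finset (Fin l))) (f := fun j => j.2.2) (fun _ _ => mem_univ _) (2 * t) ?_
  · simpa using key
  · intro a _
    refine le_trans ?_ (card_TT hS g (colr L l g a))
    refine Finset.card_le_card_of_injOn (fun j => j.2.1) ?_ ?_
    · intro j hj
      simp only [coe_filter, mem_filter, mem_univ, true_and, Set.mem_setOf_eq] at hj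
      obtain ⟨⟨⟨h1, h2, ⟨-, v, hv1, hv2⟩, h4⟩, h5⟩, h6⟩ := hj
      simp only [TT, coe_filter, Set.mem_setOf_eq]
      refine ⟨h2, ?_, v, hv2, ?_⟩
      · rw [← h5, ← h6]
        exact h4
      · rw [← h5]
        exact hv1
    · intro j hj j' hj' hjj
      simp only [coe_filter, mem_filter, mem_univ, true_and, Set.mem_setOf_eq] at hj hj'
      have e1 : j.1 = j'.1 := hj.1.2.trans hj'.1.2.symm
      have e2 : j.2.2 = j'.2.2 := hj.2.trans hj'.2.symm
      exact Prod.ext e1 (Prod.ext hjj e2)

theorem near2 {E : Finset (Sym2 V)} {L : Sym2 V → Finset ℕ} {l t D : ℕ} (hS : St E L l t D)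
    (g : Sym2 V) (hg : g ∈ E) :
    #(univ.filter fun j : Sym2 V × Sym2 V × Fin l => Vd E L l j ∧ j.2.1 = g) ≤ 2 * t * l := by
  have key := Finset.card_le_mul_card_image_of_maps_to
    (s := univ.filter fun j : Sym2 V × Sym2 V × Fin l => Vd E L l j ∧ j.2.1 = g)
    (t := L g) (f := fun j => colr L l j.1 j.2.2) ?_ (2 * t) ?_
  · rw [hS.list g hg] at key
    exact key
  · intro j hj
    simp only [mem_filter, mem_univ, true_and] at hj
    obtain ⟨⟨h1, h2, h3, h4⟩, h5⟩ := hj
    rw [← h5]
    exact h4
  · intro c _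
    refine le_trans ?_ (card_TT hS g c)
    refine Finset.card_le_card_of_injOn (fun j => j.1) ?_ ?_
    · intro j hj
      simp only [coe_filter, mem_filter, mem_univ, true_and, Set.mem_setOf_eq] at hj
      obtain ⟨⟨⟨h1, h2, ⟨-, v, hv1, hv2⟩, h4⟩, h5⟩, h6⟩ := hj
      simp only [TT, coe_filter, Set.mem_setOf_eq]
      refine ⟨h1, ?_, v, hv1, ?_⟩
      · rw [← h6]
        exact colr_mem (hS.list _ h1) _
      · rw [← h5]
        exact hv2
    · intro j hj j' hj' hjj
      simp only [coe_filter, mem_filter, mem_univ, true_and, Set.mem_setOf_eq] at hj hj'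
      obtain ⟨j1, j2, a⟩ := j
      obtain ⟨j1', j2', a'⟩ := j'
      dsimp only at hjj hj hj'
      subst hjj
      have e1 : j2 = j2' := hj.1.2.trans hj'.1.2.symm
      have e2 : a = a' := colr_inj (hS.list _ hj.1.1.1) (hj.2.trans hj'.2.symm)
      rw [e1, e2]

theorem st_FIN (hPROD : ST_PROD) : ST_FIN := by
  intro V _ E L l t D hS hl hlt
  rcases Nat.eq_zero_or_pos t with ht | ht
  · -- no edges
    have hE : E = ∅ := by
      rw [eq_empty_iff_forall_notMem]
      intro e he
      have h1 := hS.list e he
      have h2 : 0 < #(L e) := by omega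
      obtain ⟨c, hc⟩ := card_pos.1 h2
      induction e using Sym2.ind with
      | _ v w =>
        have h3 := hS.col v c
        rw [ht] at h3
        have h4 : T E L v c = ∅ := card_eq_zero.1 (by omega)
        have h5 : s(v, w) ∈ T E L v c := by
          simp only [T, mem_filter]
          exact ⟨he, Sym2.mem_mk_left v w, hc⟩
        rw [h4] at h5
        simp at h5
    subst hE
    exact ⟨fun _ => 0, by simp, by simp⟩
  · haveI : Nonempty (Fin l) := ⟨⟨0, hl⟩⟩
    let B : (Sym2 V × Sym2 V × Fin l) → Finset (Sym2 V → Fin l) := fun j =>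
      if Vd E L l j then univ.filter (fun ω => ω j.1 = j.2.2 ∧
        colr L l j.2.1 (ω j.2.1) = colr L l j.1 j.2.2) else ∅
    let Dd : (Sym2 V × Sym2 V × Fin l) → Finset (Sym2 V) := fun j =>
      if Vd E L l j then {j.1, j.2.1} else ∅
    have hBv : ∀ j, Vd E L l j → B j = univ.filter (fun ω => ω j.1 = j.2.2 ∧
        colr L l j.2.1 (ω j.2.1) = colr L l j.1 j.2.2) := fun j hj => if_pos hj
    have hBn : ∀ j, ¬ Vd E L l j → B j = ∅ := fun j hj => if_neg hj
    have hDv : ∀ j, Vd E L l j → Dd j = {j.1, j.2.1} := fun j hj => if_pos hj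
    have hDn : ∀ j, ¬ Vd E L l j → Dd j = ∅ := fun j hj => if_neg hj
    have hdep : ∀ j, Pool.Agent.Helper86.BF.DepOn (Dd j) (fun ω => ω ∈ B j) := by
      intro j ω ω' hh
      by_cases hv : Vd E L l j
      · rw [hDv _ hv] at hh
        have h1 := hh j.1 (by simp)
        have h2 := hh j.2.1 (by simp)
        simp only [hBv _ hv, mem_filter, mem_univ, true_and, h1, h2]
      · simp only [hBn _ hv, notMem_empty]
    have hprob : ∀ j, 4 * (8 * l * t) * #(B j) ≤ Fintype.card (Sym2 V → Fin l) := by
      intro j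
      by_cases hv : Vd E L l j
      · rw [hBv _ hv]
        have hP := hPROD V l hl {j.1, j.2.1}
          (fun e => if e = j.1 then {j.2.2} else
            univ.filter fun a => colr L l j.2.1 a = colr L l j.1 j.2.2)
        have hne : j.1 ≠ j.2.1 := hv.2.2.1.1
        rw [prod_pair hne, if_pos rfl, if_neg hne.symm, card_singleton] at hP
        have hc1 : #(univ.filter fun a => colr L l j.2.1 a = colr L l j.1 j.2.2) ≤ 1 := by
          rw [card_le_one]
          intro a ha b hb
          simp only [mem_filter, mem_univ, true_and] at ha hb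
          exact colr_inj (hS.list _ hv.2.1) (ha.trans hb.symm)
        have hpred : (fun ω : Sym2 V → Fin l => ∀ e ∈ ({j.1, j.2.1} : Finset (Sym2 V)),
            ω e ∈ (if e = j.1 then {j.2.2} else
            univ.filter fun a => colr L l j.2.1 a = colr L l j.1 j.2.2)) =
            (fun ω => ω j.1 = j.2.2 ∧
        colr L l j.2.1 (ω j.2.1) = colr L l j.1 j.2.2) := by
          funext ω
          simp only [mem_filter, mem_univ, true_and, mem_insert, mem_singleton, forall_eq_or_imp,
            forall_eq, if_true, if_neg hne.symm]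
        rw [hpred] at hP
        have hP2 : ((#(univ.filter (fun ω : Sym2 V → Fin l => ω j.1 = j.2.2 ∧
            colr L l j.2.1 (ω j.2.1) = colr L l j.1 j.2.2)) : ℕ) : ℝ) /
            (Fintype.card (Sym2 V → Fin l) : ℝ) = ((1 : ℕ) : ℝ) / (l : ℝ) *
              ((#(univ.filter fun a => colr L l j.2.1 a = colr L l j.1 j.2.2) : ℝ) / (l : ℝ)) := by
          rw [← hP]
          unfold Pr
          congr 3
          ext ω
          simp only [mem_filter, mem_univ, true_and]
        clear hP
        have hP := hP2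
        set N0 := #(univ.filter (fun ω : Sym2 V → Fin l => ω j.1 = j.2.2 ∧
        colr L l j.2.1 (ω j.2.1) = colr L l j.1 j.2.2)) with hN0
        have hcard : 0 < Fintype.card (Sym2 V → Fin l) := Fintype.card_pos
        have hcard' : (0 : ℝ) < (Fintype.card (Sym2 V → Fin l) : ℝ) := by exact_mod_cast hcard
        have hl' : (0 : ℝ) < (l : ℝ) := by exact_mod_cast hl
        have h1 : (N0 : ℝ) * l ^ 2 ≤ (Fintype.card (Sym2 V → Fin l) : ℝ) := by
          rw [div_eq_iff hcard'.ne'] at hP
          rw [hP]
          have hc2 : ((#(univ.filter fun a => colr L l j.2.1 a = colr L l j.1 j.2.2) : ℕ) : ℝ) ≤ 1 := by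
            exact_mod_cast hc1
          have e1 : ((1 : ℕ) : ℝ) / (l : ℝ) *
              ((#(univ.filter fun a => colr L l j.2.1 a = colr L l j.1 j.2.2) : ℝ) / (l : ℝ)) *
              (Fintype.card (Sym2 V → Fin l) : ℝ) * (l : ℝ) ^ 2 =
              (#(univ.filter fun a => colr L l j.2.1 a = colr L l j.1 j.2.2) : ℝ) *
              (Fintype.card (Sym2 V → Fin l) : ℝ) := by
            field_simp
            push_cast
            ring
          rw [e1]
          calc _ ≤ 1 * (Fintype.card (Sym2 V → Fin l) : ℝ) :=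
                mul_le_mul_of_nonneg_right hc2 hcard'.le
            _ = _ := one_mul _
        have h2 : N0 * l ^ 2 ≤ Fintype.card (Sym2 V → Fin l) := by exact_mod_cast h1
        calc 4 * (8 * l * t) * N0 = (32 * t) * l * N0 := by ring
          _ ≤ l * l * N0 := by gcongr
          _ = N0 * l ^ 2 := by ring
          _ ≤ _ := h2
      · rw [hBn _ hv]
        simp
    have hdeg : ∀ j, #(univ.filter fun j' => ¬ Disjoint (Dd j) (Dd j')) ≤ 8 * l * t := by
      intro j
      by_cases hv : Vd E L l j
      · have hsub : (univ.filter fun j' => ¬ Disjoint (Dd j) (Dd j')) ⊆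
            ((univ.filter fun j' : Sym2 V × Sym2 V × Fin l => Vd E L l j' ∧ j'.1 = j.1) ∪
            (univ.filter fun j' : Sym2 V × Sym2 V × Fin l => Vd E L l j' ∧ j'.2.1 = j.1)) ∪
            ((univ.filter fun j' : Sym2 V × Sym2 V × Fin l => Vd E L l j' ∧ j'.1 = j.2.1) ∪
            (univ.filter fun j' : Sym2 V × Sym2 V × Fin l => Vd E L l j' ∧ j'.2.1 = j.2.1)) := by
          intro j' hj'
          simp only [mem_filter, mem_univ, true_and] at hj'
          have hv' : Vd E L l j' := by
            by_contra hcon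
            rw [hDn _ hcon] at hj'
            exact hj' (disjoint_empty_right _)
          rw [hDv _ hv, hDv _ hv', not_disjoint_iff] at hj'
          obtain ⟨x, hx, hx'⟩ := hj'
          simp only [mem_insert, mem_singleton] at hx hx'
          simp only [mem_union, mem_filter, mem_univ, true_and, hv']
          rcases hx with rfl | rfl <;> rcases hx' with h | h <;> simp [← h]
        have c1 := near1 (l := l) hS j.1
        have c2 := near2 (l := l) hS j.1 hv.1
        have c3 := near1 (l := l) hS j.2.1
        have c4 := near2 (l := l) hS j.2.1 hv.2.1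
        have hc := (card_le_card hsub).trans (card_union_le _ _)
        have hc1 := card_union_le
          (univ.filter fun j' : Sym2 V × Sym2 V × Fin l => Vd E L l j' ∧ j'.1 = j.1)
          (univ.filter fun j' : Sym2 V × Sym2 V × Fin l => Vd E L l j' ∧ j'.2.1 = j.1)
        have hc2 := card_union_le
          (univ.filter fun j' : Sym2 V × Sym2 V × Fin l => Vd E L l j' ∧ j'.1 = j.2.1)
          (univ.filter fun j' : Sym2 V × Sym2 V × Fin l => Vd E L l j' ∧ j'.2.1 = j.2.1)
        have e : 8 * l * t = 2 * t * l + 2 * t * l + (2 * t * l + 2 * t * l) := by ring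
        rw [e]
        omega
      · have : (univ.filter fun j' => ¬ Disjoint (Dd j) (Dd j')) = ∅ := by
          rw [filter_eq_empty_iff]
          intro j' _
          rw [hDn _ hv, not_not]
          exact disjoint_empty_left _
        rw [this]
        simp
    obtain ⟨ω, hω⟩ := Pool.Agent.Helper86.BF.lll B Dd hdep (8 * l * t) (by positivity) hprob hdeg
    refine ⟨fun e => colr L l e (ω e), fun e he => colr_mem (hS.list e he) _, ?_⟩
    intro e he e' he' hadj heq
    dsimp only at heq
    have hv : Vd E L l (e, e', ω e) := by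
      refine ⟨he, he', hadj, ?_⟩
      show colr L l e (ω e) ∈ L e'
      rw [heq]
      exact colr_mem (hS.list e' he') _
    apply hω (e, e', ω e)
    rw [hBv _ hv, mem_filter]
    exact ⟨mem_univ _, rfl, heq.symm⟩

end

end Pool.Agent.Helper19.NB
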